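import Pool.Agent.V11190.NondegTrig
import Pool.Agent.V11190.NondegFrame

/-!
# Perturbing the plane circle into nondegenerate curves of `ℝⁿ`, `n ≥ 4`

`μ(n) = 1` for every `n ≥ 4`: every `C^∞`-neighbourhood of the plane circle `(cos t, sin t, 0, …, 0)`
traversed once contains a nondegenerate closed curve of `ℝⁿ` (Q1). The Frenet frame of every nondegenerate
closed curve in `ℝⁿ`, `n ≥ 4`, has length `> 2π μ(n)` (Q2).

For even `n` one may take `(cos t, sin t, ε cos 3t, ε sin 3t, ε cos 5t, ε sin 5t, …)`. For odd `n` the last three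
coordinates are replaced by combinations of `cos 2t, sin 2t, cos 4t, sin 4t` and by `sin 6t` in such a
way that the product of the operators `D² + (2i+1)²` carries them to the derivative of a closed curve
of `ℝ³` with nowhere vanishing torsion.
-/

open Real Set MeasureTheory InnerProductSpace

namespace Pool.Agent.Results.MP_f07be6_gt.MuOne

open Pool.Agent.V11190.Nondeg

section
variable {n : ℕ} {γ : ℝ → E n}

lemma second_ne (h : IsNondegenerate γ) (h0 : 0 < n) (h1 : 1 < n) (h2 : 2 < n) (t : ℝ) :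
    inner ℝ (deriv (frame γ ⟨1, h1⟩) t) (frame γ ⟨2, h2⟩ t) ≠ 0 := by
  intro hcon
  -- `γ'' = a e₁ + b e₂`
  have k := frame_expand h t (iteratedDeriv 2 γ t)
  rw [Finset.sum_eq_add (⟨0, h0⟩ : Fin n) ⟨1, h1⟩ (by simp)] at k
  · have k1 := inner_deriv h (i := ⟨2, h2⟩) (j := ⟨1, h1⟩) (by rw [Fin.lt_def]; simp) t
    have k2 := frame_iter_self h ⟨2, h2⟩ t
    simp only at k1 k2
    rw [show (1 : ℕ) + 1 = 2 from rfl] at k1
    rw [← k, inner_add_left, inner_smul_left, inner_smul_left] at k1
    have k3 := deriv_first_zero h h0 h1 (j := ⟨2, h2⟩) (by simp) t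
    have k4 := inner_frame_deriv h ⟨0, h0⟩ ⟨2, h2⟩ t
    have k5 := inner_frame_deriv h ⟨1, h1⟩ ⟨2, h2⟩ t
    rw [k4, k3, k5, hcon] at k1
    simp only [neg_zero, mul_zero, add_zero] at k1
    linarith
  · intro l _ hl
    have h3 : (⟨1, h1⟩ : Fin n) < l := by
      rw [Fin.lt_def]
      have e0 : (l : ℕ) ≠ 0 := fun h3 => hl.1 (Fin.ext h3)
      have e1 : (l : ℕ) ≠ 1 := fun h3 => hl.2 (Fin.ext h3)
      simp only
      omega
    have h4 := frame_iter_zero (γ := γ) h3 t
    simp only at h4
    rw [real_inner_comm, h4, zero_smul]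
  · intro h3
    exact absurd (Finset.mem_univ _) h3
  · intro h3
    exact absurd (Finset.mem_univ _) h3

lemma deriv_ne (h : IsNondegenerate γ) (h0 : 0 < n) (t : ℝ) : deriv γ t ≠ 0 := by
  have := (h.2 t).ne_zero ⟨0, h0⟩
  simpa using this

lemma deriv_eq (γ : ℝ → E n) (t : ℝ) : iteratedDeriv 1 γ t = deriv γ t := by
  rw [iteratedDeriv_one]

lemma continuous_curvature (h : IsNondegenerate γ) (h0 : 0 < n) (i : Fin n) : Continuous (curvature γ i) := by
  unfold curvature
  by_cases hi : (i : ℕ) + 1 < n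
  · simp only [hi, dif_pos]
    have c1 : Continuous (deriv (frame γ i)) :=
      (frame_smooth h i).continuous_deriv (by exact_mod_cast le_top)
    have c2 : Continuous (deriv γ) := h.1.1.continuous_deriv (by exact_mod_cast le_top)
    exact (c1.inner (frame_smooth h _).continuous).div c2.norm fun t =>
      norm_ne_zero_iff.mpr (deriv_ne h h0 t)
  · simp only [hi, dif_neg, not_false_eq_true]
    exact continuous_const

lemma frame_periodic (h : IsNondegenerate γ) (h0 : 0 < n) :
    frame γ ⟨0, h0⟩ (2 * π) = frame γ ⟨0, h0⟩ 0 := by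
  have hd : ∀ k, iteratedDeriv k γ (2 * π) = iteratedDeriv k γ 0 := by
    intro k
    have h1 : (fun t => γ (t + 2 * π)) = γ := funext h.1.2
    have h2 := iteratedDeriv_comp_add_const k γ (2 * π)
    rw [h1] at h2
    have := congrFun h2 0
    simpa using this.symm
  unfold frame
  congr 1
  ext1 j
  exact hd _

/-- The length of the Frenet frame exceeds `2π` in dimension at least three. -/
lemma frameLength_gt (h : IsNondegenerate γ) (hn : 3 ≤ n) : 2 * π < frameLength γ := by
  have h0 : 0 < n := by omega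
  have h1 : 1 < n := by omega
  have h2 : 2 < n := by omega
  have hpi := pi_pos
  have c2 : Continuous (deriv γ) := h.1.1.continuous_deriv (by exact_mod_cast le_top)
  have c3 : Continuous (deriv (frame γ ⟨0, h0⟩)) :=
    (frame_smooth h _).continuous_deriv (by exact_mod_cast le_top)
  -- Fenchel's theorem
  have hF : 2 * π ≤ ∫ t in 0..(2 * π), ‖deriv (frame γ ⟨0, h0⟩) t‖ := by
    apply fenchel (γ := γ) (γ' := deriv γ) (c := frame γ ⟨0, h0⟩) (c' := deriv (frame γ ⟨0, h0⟩))
    · intro t
      exact ((h.1.1.differentiable (by simp)).differentiableAt).hasDerivAt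
    · exact h.1.2
    · exact frame_periodic h h0
    · intro t
      refine ⟨_, first_pos h h0 t, ?_⟩
      rw [← deriv_eq]
      exact first_eq h h0 t
    · exact frame_hasDeriv h _
    · exact c3
    · intro t
      exact (frame_ortho h t).1 _
  refine lt_of_le_of_lt hF ?_
  have hpt : ∀ t, ‖deriv (frame γ ⟨0, h0⟩) t‖ < √(∑ i, curvature γ i t ^ 2) * ‖deriv γ t‖ := by
    intro t
    have hg : 0 < ‖deriv γ t‖ := norm_pos_iff.mpr (deriv_ne h h0 t)
    have e1 : ‖deriv (frame γ ⟨0, h0⟩) t‖ = |curvature γ ⟨0, h0⟩ t| * ‖deriv γ t‖ := by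
      rw [deriv_first_eq h h0 h1]
      unfold curvature
      rw [dif_pos (by simpa using h1)]
      rw [abs_div, abs_of_pos hg, div_mul_cancel₀ _ hg.ne']
    have e2 : curvature γ ⟨1, h1⟩ t ≠ 0 := by
      unfold curvature
      rw [dif_pos (by simpa using h2)]
      exact div_ne_zero (second_ne h h0 h1 h2 t) hg.ne'
    rw [e1]
    apply mul_lt_mul_of_pos_right _ hg
    rw [← Real.sqrt_sq_eq_abs]
    apply Real.sqrt_lt_sqrt (sq_nonneg _)
    have e3 : curvature γ ⟨0, h0⟩ t ^ 2 + curvature γ ⟨1, h1⟩ t ^ 2 ≤ ∑ i, curvature γ i t ^ 2 := by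
      rw [← Finset.sum_pair (f := fun i => curvature γ i t ^ 2)
        (show (⟨0, h0⟩ : Fin n) ≠ ⟨1, h1⟩ by simp)]
      exact Finset.sum_le_sum_of_subset_of_nonneg (Finset.subset_univ _) fun _ _ _ => sq_nonneg _
    have e4 : 0 < curvature γ ⟨1, h1⟩ t ^ 2 := by positivity
    linarith
  unfold frameLength
  apply intervalIntegral.integral_lt_integral_of_continuousOn_of_le_of_exists_lt (by positivity)
  · exact c3.norm.continuousOn
  · apply Continuous.continuousOn
    exact (Real.continuous_sqrt.comp (continuous_finsetSum _ fun i _ =>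
      (continuous_curvature h h0 i).pow 2)).mul c2.norm
  · intro t _
    exact (hpt t).le
  · exact ⟨0, left_mem_Icc.mpr (by positivity), hpt 0⟩

end

/-- **Perturbing multiply traversed circles into nondegenerate curves.**

Q1. For every `n ≥ 4` the least `m ≥ 1` such that every `C^∞`-neighbourhood of the `m` times traversed
plane unit circle `c_m` contains a nondegenerate closed curve in `ℝⁿ` is `1`; so `μ(n) = 1`.

Q2. For every `n ≥ 4` the Frenet frame of every nondegenerate closed curve in `ℝⁿ` has length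
`> 2π μ(n)`. -/
theorem result :
    (∀ n : ℕ, 4 ≤ n → IsLeast {m : ℕ | 1 ≤ m ∧ Perturbable n m} 1 ∧ mu n = 1) ∧
    (∀ n : ℕ, 4 ≤ n → ∀ γ : ℝ → E n, IsNondegenerate γ → 2 * π * mu n < frameLength γ) := by
  have h1 : ∀ n : ℕ, 4 ≤ n → IsLeast {m : ℕ | 1 ≤ m ∧ Perturbable n m} 1 := fun n hn =>
    ⟨⟨le_rfl, perturbable_one n hn⟩, fun m hm => hm.1⟩
  have h2 : ∀ n : ℕ, 4 ≤ n → mu n = 1 := fun n hn => (h1 n hn).csInf_eq
  refine ⟨fun n hn => ⟨h1 n hn, h2 n hn⟩, fun n hn γ h => ?_⟩
  rw [h2 n hn, Nat.cast_one, mul_one]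
  exact frameLength_gt h (by omega)

end Pool.Agent.Results.MP_f07be6_gt.MuOne
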